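import Pool.Agent.Lib_helper82.TM32.Supp
import Pool.Agent.Lib_helper82.Quartic.Chain2
import Pool.Agent.Lib_helper51.TM32.Defs

/-!
Block I3 of TM32: the quartic step.
-/

set_option autoImplicit false

namespace Pool.Agent.TM32

open Zsqrtd Pool.Agent.Quartic82

/-- every nonzero Gaussian integer is `i^k (1+i)^m` times an odd element with even imaginary part -/
theorem dec2 {b : GaussianInt} (hb : b ≠ 0) : ∃ (k m : ℕ) (b0 : GaussianInt), k < 2 ∧
    b0.re % 2 = 1 ∧ b0.im % 2 = 0 ∧ b = gI ^ k * gT ^ m * b0 := by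
  have hTp : Prime gT := by
    apply prime_of_norm (p := 2) Nat.prime_two
    rw [norm_val]; norm_num
  obtain ⟨m, c, hc, hbc⟩ := WfDvdMonoid.max_power_factor' hb hTp.not_isUnit
  have ho : Od c := by
    unfold Od
    rw [norm_val]
    by_contra h
    apply hc
    have h1 : (c.re + c.im) % 2 = 0 := by
      have e : c.re ^ 2 + c.im ^ 2 = (c.re + c.im) ^ 2 - 2 * (c.re * c.im) := by ring
      rw [e] at h
      have h2 : (c.re + c.im) ^ 2 % 2 = (c.re + c.im) % 2 := by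
        rcases Int.emod_two_eq_zero_or_one (c.re + c.im) with h | h <;>
          simp [pow_two, Int.mul_emod, h]
      omega
    obtain ⟨s, hs⟩ : ∃ s, c.re + c.im = 2 * s := ⟨(c.re + c.im) / 2, by omega⟩
    refine ⟨⟨s, c.im - s⟩, ?_⟩
    ext
    · simp; omega
    · simp
  obtain ⟨u, hu, him⟩ := exists_unit_im_even ho
  have hre := od_im_even_re ((od_unit hu).mul ho) him
  have hbc' : b = star u * gT ^ m * (u * c) := by
    have := unit_mul_star hu
    rw [hbc]; linear_combination (-(gT ^ m * c)) * this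
  rcases unit_cases (star_unit hu) with h | h | h | h
  · exact ⟨0, m, u * c, by norm_num, hre, him, by rw [hbc', h]; ring⟩
  · refine ⟨0, m, -(u * c), by norm_num, ?_, ?_, by rw [hbc', h]; ring⟩
    · rw [Zsqrtd.re_neg]; omega
    · rw [Zsqrtd.im_neg]; omega
  · exact ⟨1, m, u * c, by norm_num, hre, him, by rw [hbc', h]; ring⟩
  · refine ⟨1, m, -(u * c), by norm_num, ?_, ?_, by rw [hbc', h]; ring⟩
    · rw [Zsqrtd.re_neg]; omega
    · rw [Zsqrtd.im_neg]; omega

/-- a prime dividing two coprime elements -/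
theorem cop_star {x y : GaussianInt} (h : IsCoprime x (star y)) : IsCoprime (star x) y := by
  have := isCoprime_star h
  rwa [star_star] at this

theorem even_norm {β : GaussianInt} {w : GaussianInt} (h : β = gT * w) :
    (β.im - β.re) % 2 = 0 := by
  rw [h]; simp; omega

/-- parity of the norm -/
theorem norm_parity (b : GaussianInt) : b.norm % 2 = (b.re + b.im) % 2 := by
  rw [norm_val]
  have e : b.re ^ 2 + b.im ^ 2 = (b.re + b.im) ^ 2 - 2 * (b.re * b.im) := by ring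
  rw [e]
  have h2 : (b.re + b.im) ^ 2 % 2 = (b.re + b.im) % 2 := by
    rcases Int.emod_two_eq_zero_or_one (b.re + b.im) with h | h <;>
      simp [pow_two, Int.mul_emod, h]
  omega

theorem iz_mod {s t : ℤ} (h : (4 : ℤ) ∣ s - t) : iz s = iz t := by
  obtain ⟨k, hk⟩ := h
  have : s = t + 4 * k := by linarith
  rw [this, iz_add, iz_four, mul_one]

theorem iz_even {s : ℤ} (h : s % 2 = 0) : iz s = if s % 4 = 0 then 1 else -1 := by
  obtain ⟨t, ht⟩ : ∃ t, s = 2 * t := ⟨s / 2, by omega⟩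
  rw [ht, iz_two]
  congr 1
  apply propext; omega

theorem pm_sq {x : GaussianInt} (h : x = 1 ∨ x = -1) : x * x = 1 := by
  rcases h with h | h <;> rw [h] <;> ring

theorem ite_pm (P : Prop) [Decidable P] : (if P then (1 : GaussianInt) else -1) = 1 ∨
    (if P then (1 : GaussianInt) else -1) = -1 := by
  split_ifs
  · left; rfl
  · right; rfl

/-- the final comparison of signs: `x = star δ * c`, `α = x - 2 i β`, `β = i^k (1+i)^m z`. -/
theorem fin_sign {α x c z β : GaussianInt} {k m : ℕ} {e' Nb : ℤ} (hk : k < 2)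
    (hα : α = x - 2 * gI * β) (hx : x.re % 2 = 1) (hxi : x.im % 2 = 0)
    (hz : z.re % 2 = 1) (hzi : z.im % 2 = 0) (hβ : β = gI ^ k * gT ^ m * z)
    (hc : c.re % 2 = 1) (hci : c.im % 2 = 0) (he : e' = c.norm + 4 * Nb)
    {n0 : ℤ} (hn0 : n0 % 2 = 1) (hNb : Nb = 2 ^ m * n0) :
    (Q2 gI x * Q2 gI α * (Q4 gI (e' : GaussianInt) * Q2 gI c)) ^ k *
      (Q2 gT x * Q2 gT α * (Q4 gT (e' : GaussianInt) * Q4 (-gI) c)) ^ m *
      (Q4 gI (e' : GaussianInt) * Q2 gI c) = if β.re % 2 = 0 then 1 else -1 := by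
  have hco := od_of_re hc hci
  have hc4 := norm_mod_four hco
  have he4 : e' % 4 = 1 := by omega
  have he2 : e' % 2 = 1 := by omega
  have hαre : α.re = x.re + 2 * β.im := by
    rw [hα]; simp
  have hαim : α.im = x.im - 2 * β.re := by
    rw [hα]; simp
  have hα1 : α.re % 2 = 1 := by omega
  have hα2 : α.im % 2 = 0 := by omega
  have hA : Q2 gI x * Q2 gI α = if β.re % 2 = 0 then 1 else -1 := by
    rw [Q2_gI' hx hxi, Q2_gI' hα1 hα2]
    split_ifs <;> first | (exfalso; omega) | ring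
  have hB0 : Q4 gI (e' : GaussianInt) = iz (2 * ((e' - 1) / 4)) := by
    rw [Q4_gI_int he2, iz_two]
    congr 1
    apply propext; omega
  have hB : Q4 gI (e' : GaussianInt) * Q2 gI c = if Nb % 2 = 0 then 1 else -1 := by
    have h1 : Q2 gI c = iz (2 * ((c.norm - 1) / 4)) := by
      unfold Q2
      rw [Q4_gI' hco, pow_two, ← iz_add, ← two_mul]
    rw [h1, hB0, ← iz_add]
    have e : 2 * ((e' - 1) / 4) + 2 * ((c.norm - 1) / 4) = 4 * ((c.norm - 1) / 4) + 2 * Nb := by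
      omega
    rw [e, iz_add, iz_four, one_mul, iz_two]
  have hC : Q4 gT (e' : GaussianInt) * Q4 (-gI) c = iz Nb := by
    have h1 : Q4 (-gI) c = iz (-((c.norm - 1) / 4)) := by
      have h2 : Q4 (-gI) c * Q4 gI c = 1 := by
        rw [← Q4_mul_left _ _ hco]
        have : -gI * gI = 1 := by ext <;> simp
        rw [this, Q4_one_left hco]
      have h3 : iz (-((c.norm - 1) / 4)) * Q4 gI c = 1 := by
        rw [Q4_gI' hco, ← iz_add, neg_add_cancel, iz_zero]
      have h4 : Q4 gI c ≠ 0 := by rw [Q4_gI' hco]; exact (iz_unit _).ne_zero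
      exact mul_right_cancel₀ h4 (h2.trans h3.symm)
    have h5 : nst e' = e' := by unfold nst; rw [if_pos he4]
    rw [h1, Q4_gT_int e' he2, h5, ← iz_add]
    congr 1; omega
  have hD : (β.im - β.re) % 2 = 0 →
      Q2 gT x * Q2 gT α = if (β.im - β.re) % 4 = 0 then 1 else -1 := by
    intro h
    rw [Q2_gT' hx hxi, Q2_gT' hα1 hα2]
    split_ifs <;> first | (exfalso; omega) | ring
  rw [hA, hB, hC]
  rcases Nat.lt_or_ge m 3 with hm | hm
  · interval_cases m
    · -- m = 0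
      have hN : ¬ Nb % 2 = 0 := by rw [hNb]; omega
      rw [if_neg hN]
      interval_cases k
      · have : β.re = z.re := by rw [hβ]; simp
        rw [this, if_neg (by omega)]; ring
      · have : β.re = -z.im := by rw [hβ]; simp
        rw [this, if_pos (by omega)]; ring
    · -- m = 1
      have hN : Nb % 2 = 0 := by rw [hNb]; omega
      have hN4 : iz Nb = -1 := by rw [iz_even hN, if_neg (by rw [hNb]; omega)]
      rw [if_pos hN, hN4]
      interval_cases k
      · have h1 : β.re = z.re - z.im := by rw [hβ]; simp; ring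
        have h2 : β.im = z.re + z.im := by rw [hβ]; simp; ring
        rw [hD (by omega), if_pos (by omega : (β.im - β.re) % 4 = 0), if_neg (by omega)]; ring
      · have h1 : β.re = -z.re - z.im := by rw [hβ]; simp; ring
        have h2 : β.im = z.re - z.im := by rw [hβ]; simp; ring
        rw [hD (by omega), if_neg (by omega : ¬ (β.im - β.re) % 4 = 0), if_neg (by omega)]; ring
    · -- m = 2
      have hN : Nb % 2 = 0 := by rw [hNb]; omega
      have hN4 : iz Nb = 1 := by rw [iz_even hN, if_pos (by rw [hNb]; omega)]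
      have h1 : β.re % 2 = 0 ∧ β.im % 2 = 0 := by
        interval_cases k
        · constructor
          · rw [hβ]; simp [pow_two]
          · rw [hβ]; simp [pow_two]
        · constructor
          · rw [hβ]; simp [pow_two]
          · rw [hβ]; simp [pow_two]
      rw [if_pos hN, hN4, if_pos h1.1, hD (by omega), mul_one, mul_one, mul_one, one_pow, one_mul,
        pow_two]
      exact pm_sq (ite_pm _)
  · -- m ≥ 3
    obtain ⟨l, rfl⟩ : ∃ l, m = l + 3 := ⟨m - 3, by omega⟩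
    have hN : Nb % 4 = 0 := by
      rw [hNb, pow_add]
      have : (2 : ℤ) ^ l * 2 ^ 3 * n0 = 4 * (2 * 2 ^ l * n0) := by ring
      rw [this]; omega
    obtain ⟨w, hw⟩ : ∃ w : GaussianInt, w = gI ^ k * gT ^ l * z := ⟨_, rfl⟩
    have hβ2 : β = gT ^ 3 * w := by rw [hβ, hw]; ring
    have h1 : β.re = 2 * (-w.re - w.im) := by
      rw [hβ2]; simp [pow_succ]; ring
    have h2 : β.im = 2 * (w.re - w.im) := by
      rw [hβ2]; simp [pow_succ]; ring
    rw [if_pos (by omega : Nb % 2 = 0), iz_even (by omega), if_pos hN,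
      if_pos (by omega : β.re % 2 = 0), hD (by omega), if_pos (by omega : (β.im - β.re) % 4 = 0)]
    simp

theorem norm_pow' (x : GaussianInt) (n : ℕ) : (x ^ n).norm = x.norm ^ n := by
  induction n with
  | zero => simp
  | succ n ih => rw [pow_succ, Zsqrtd.norm_mul, ih, pow_succ]

theorem Q2_kappa {z : GaussianInt} (hz : Od z) (k m : ℕ) :
    Q2 (gI ^ k * gT ^ m) z = Q2 gI z ^ k * Q2 gT z ^ m := by
  unfold Q2
  rw [Q4_mul_left _ _ hz, Q4_pow_left _ _ hz, Q4_pow_left _ _ hz]; ring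

theorem sign_alg (k m : ℕ) (u1 u2 v1 v2 c1 c2 e1 e2 n1 : GaussianInt) (h1 : u1 * u1 = 1)
    (h2 : u2 * u2 = 1) (h3 : c1 * c1 = 1) :
    u1 ^ k * u2 ^ m * ((v1 * c1 * u1 * (e1 * c1)) ^ k * (v2 * c2 * u2 * (e2 * n1)) ^ m * (e1 * c1))
      = v1 ^ k * v2 ^ m * e1 * (e1 ^ k * e2 ^ m) * (c1 * (n1 * c2) ^ m) := by
  have e1' : v1 * c1 * u1 * (e1 * c1) = v1 * u1 * e1 := by linear_combination (v1 * u1 * e1) * h3
  have e2' : u1 ^ k * (v1 * u1 * e1) ^ k = (v1 * e1) ^ k := by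
    rw [← mul_pow]; congr 1; linear_combination (v1 * e1) * h1
  have e3' : u2 ^ m * (v2 * c2 * u2 * (e2 * n1)) ^ m = (v2 * e2 * (n1 * c2)) ^ m := by
    rw [← mul_pow]; congr 1; linear_combination (v2 * c2 * e2 * n1) * h2
  rw [e1']
  calc _ = (u1 ^ k * (v1 * u1 * e1) ^ k) * (u2 ^ m * (v2 * c2 * u2 * (e2 * n1)) ^ m) * (e1 * c1) := by
        ring
    _ = _ := by rw [e2', e3']; rw [mul_pow, mul_pow, mul_pow]; ring

/-- the case of even imaginary part -/
theorem quart_even (α β : GaussianInt) (hα : α.re % 2 = 1) (hαi : α.im % 2 = 0) (p : ℕ)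
    (hp : p.Prime) (hn : (α ^ 2 + 8 * β ^ 2).norm = (p : ℤ)) (H e : ℤ)
    (hH : H = α.re * β.im - α.im * β.re) (he : e = 8 * β.norm + α.norm - 4 * H) :
    Q4 (e : GaussianInt) (α ^ 2 + 8 * β ^ 2) = Q2 β α * (if β.re % 2 = 0 then 1 else -1) := by
  have hαo := od_of_re hα hαi
  obtain ⟨π, hπ⟩ : ∃ π : GaussianInt, π = α ^ 2 + 8 * β ^ 2 := ⟨_, rfl⟩
  rw [← hπ] at hn ⊢
  have hπp : Prime π := prime_of_norm hp hn
  -- the norm of `π`
  obtain ⟨s, hs⟩ : ∃ s : ℤ, s = α.norm + 8 * β.norm := ⟨_, rfl⟩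
  have hps : (p : ℤ) = s ^ 2 - 32 * H ^ 2 := by
    rw [← hn, hπ, hs, hH, norm_val, norm_val, norm_val]
    simp only [pow_two, Zsqrtd.re_add, Zsqrtd.im_add, Zsqrtd.re_mul, Zsqrtd.im_mul]
    simp
    ring
  have hes : e = s - 4 * H := by rw [he, hs]; ring
  have hp2 : p % 2 = 1 := by
    have h1 : s % 2 = 1 := by
      have : α.norm % 2 = 1 := hαo
      omega
    have h2 : (p : ℤ) % 2 = 1 := by
      obtain ⟨t, ht⟩ : ∃ t, s = 2 * t + 1 := ⟨s / 2, by omega⟩
      rw [hps, ht]; ring_nf; omega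
    omega
  have hpi : Prime (p : ℤ) := Nat.prime_iff_prime_int.1 hp
  have hpe : ¬ (p : ℤ) ∣ e := by
    intro h
    have h1 : (p : ℤ) ∣ 16 * H ^ 2 := by
      have e1 : 16 * H ^ 2 = e * (s + 4 * H) - p := by rw [hps, hes]; ring
      rw [e1]; exact dvd_sub (h.mul_right _) dvd_rfl
    have h2 : (p : ℤ) ∣ H := by
      rcases hpi.dvd_or_dvd h1 with h3 | h3
      · exfalso
        have h4 : (p : ℤ) ∣ 2 := by
          have : (16 : ℤ) = 2 ^ 4 := by norm_num
          rw [this] at h3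
          exact hpi.dvd_of_dvd_pow h3
        have h5 : p ∣ 2 := by exact_mod_cast h4
        have h6 := (Nat.prime_dvd_prime_iff_eq hp Nat.prime_two).1 h5
        omega
      · exact hpi.dvd_of_dvd_pow h3
    have h3 : (p : ℤ) ∣ s := by
      have : s = e + 4 * H := by rw [hes]; ring
      rw [this]; exact dvd_add h (h2.mul_left _)
    obtain ⟨u, hu⟩ := h2
    obtain ⟨v, hv⟩ := h3
    have h4 : (p : ℤ) * p ∣ p := by
      refine ⟨v ^ 2 - 32 * u ^ 2, ?_⟩
      conv_lhs => rw [hps, hu, hv]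
      ring
    have h5 : p * p ∣ p := by exact_mod_cast h4
    have h6 := (Nat.Prime.prime hp).squarefree _ (by exact_mod_cast h5)
    exact hp.one_lt.ne' (Nat.isUnit_iff.1 h6)
  -- `α`, `β` coprime
  have hcop : ∀ ρ : GaussianInt, Prime ρ → ρ ∣ α → ρ ∣ β → False := by
    rintro ρ hρ ⟨a, ha⟩ ⟨b, hb⟩
    have h1 : π = ρ * (ρ * (a ^ 2 + 8 * b ^ 2)) := by rw [hπ, ha, hb]; ring
    rcases hπp.irreducible.isUnit_or_isUnit h1 with h2 | h2
    · exact hρ.not_isUnit h2
    · exact hρ.not_isUnit (isUnit_of_mul_isUnit_left h2)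
  have hβ0 : β ≠ 0 := by
    rintro rfl
    have h1 : π = α * α := by rw [hπ]; ring
    rcases hπp.irreducible.isUnit_or_isUnit h1 with h2 | h2
    · exact hπp.not_isUnit (h1 ▸ h2.mul h2)
    · exact hπp.not_isUnit (h1 ▸ h2.mul h2)
  -- the gcd
  obtain ⟨γ, hγ⟩ : ∃ γ : GaussianInt, γ = α + 2 * gI * β := ⟨_, rfl⟩
  have hγre : γ.re = α.re - 2 * β.im := by rw [hγ]; simp; ring
  have hγim : γ.im = α.im + 2 * β.re := by rw [hγ]; simp
  have hγo : Od γ := od_of_re (by omega) (by omega)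
  obtain ⟨δ, b, c, hδre, hδim, hb, hc, hbc⟩ : ∃ δ b c : GaussianInt, δ.re % 2 = 1 ∧ δ.im % 2 = 0 ∧
      β = δ * b ∧ γ = star δ * c ∧ IsCoprime b (star c) := by
    obtain ⟨δ₀, hδ₀⟩ : ∃ δ₀, δ₀ = EuclideanDomain.gcd β (star γ) := ⟨_, rfl⟩
    obtain ⟨b, hb⟩ : δ₀ ∣ β := hδ₀ ▸ EuclideanDomain.gcd_dvd_left _ _
    obtain ⟨c, hc⟩ : δ₀ ∣ star γ := hδ₀ ▸ EuclideanDomain.gcd_dvd_right _ _
    have hδo : Od δ₀ := hγo.star.of_dvd ⟨c, hc⟩
    have hbc : IsCoprime b c := by
      have h1 := EuclideanDomain.gcd_eq_gcd_ab β (star γ)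
      rw [← hδ₀] at h1
      refine ⟨EuclideanDomain.gcdA β (star γ), EuclideanDomain.gcdB β (star γ), ?_⟩
      have h2 : δ₀ * 1 = δ₀ * (b * EuclideanDomain.gcdA β (star γ) +
          c * EuclideanDomain.gcdB β (star γ)) := by
        rw [mul_one, mul_add, ← mul_assoc, ← mul_assoc, ← hb, ← hc]
        exact h1
      have h3 := mul_left_cancel₀ hδo.ne_zero h2
      rw [h3]; ring
    obtain ⟨u, hu, him⟩ := exists_unit_im_even hδo
    have hre := od_im_even_re ((od_unit hu).mul hδo) him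
    have hus := unit_mul_star hu
    refine ⟨u * δ₀, star u * b, star (star u * c), hre, him, ?_, ?_, ?_⟩
    · rw [hb]; linear_combination (-(δ₀ * b)) * hus
    · rw [← star_mul, ← star_star γ, hc]
      congr 1
      linear_combination (-(δ₀ * c)) * hus
    · rw [star_star]
      exact (isCoprime_mul_unit_left (star_unit hu) _ _).2 hbc
  have hδo := od_of_re hδre hδim
  have hDre : (star δ).re % 2 = 1 := by simpa using hδre
  have hDim : (star δ).im % 2 = 0 := by simp; omega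
  have hD0 := hδo.star
  have hco : Od c := hγo.of_dvd ⟨star δ, by rw [hc]; ring⟩
  have hcc : c.re % 2 = 1 ∧ c.im % 2 = 0 := by
    have h1 : γ.im = δ.re * c.im - δ.im * c.re := by rw [hc]; simp; ring
    have h2 : c.im % 2 = 0 := by
      have h3 : (δ.re * c.im) % 2 = 0 := by
        have h4 : (δ.im * c.re) % 2 = 0 := by rw [Int.mul_emod, hδim]; simp
        omega
      rw [Int.mul_emod, hδre] at h3
      omega
    exact ⟨od_im_even_re hco h2, h2⟩
  obtain ⟨hcre, hcim⟩ := hcc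
  have hb0 : b ≠ 0 := by rintro rfl; exact hβ0 (by rw [hb, mul_zero])
  obtain ⟨k, m, b0, hk, hb0re, hb0im, hbk⟩ := dec2 hb0
  have hb0o := od_of_re hb0re hb0im
  obtain ⟨κ, hκ⟩ : ∃ κ : GaussianInt, κ = gI ^ k * gT ^ m := ⟨_, rfl⟩
  rw [← hκ] at hbk
  have hb0b : b0 ∣ b := ⟨κ, by rw [hbk]; ring⟩
  have hb0β : b0 ∣ β := hb0b.trans ⟨δ, by rw [hb]; ring⟩
  -- coprimality
  have cbc : IsCoprime b c := by
    apply coprime_of_primes hco.ne_zero
    intro ρ hρ h1 h2
    have h3 : ρ ∣ β := h1.trans ⟨δ, by rw [hb]; ring⟩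
    have h4 : ρ ∣ γ := h2.trans ⟨star δ, by rw [hc]; ring⟩
    apply hcop ρ hρ _ h3
    have : α = γ - β * (2 * gI) := by rw [hγ]; ring
    rw [this]; exact dvd_sub h4 (h3.mul_right _)
  have hDα : ∀ ρ : GaussianInt, Prime ρ → ρ ∣ star δ → ρ ∣ β → False := by
    intro ρ hρ h1 h2
    have h4 : ρ ∣ γ := h1.trans ⟨c, hc⟩
    apply hcop ρ hρ _ h2
    have : α = γ - β * (2 * gI) := by rw [hγ]; ring
    rw [this]; exact dvd_sub h4 (h2.mul_right _)
  have cDδ : IsCoprime (star δ) δ := by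
    apply coprime_of_primes hδo.ne_zero
    intro ρ hρ h1 h2
    exact hDα ρ hρ h1 (h2.trans ⟨b, hb⟩)
  have cDb0 : IsCoprime (star δ) b0 := by
    apply coprime_of_primes hb0o.ne_zero
    intro ρ hρ h1 h2
    exact hDα ρ hρ h1 (h2.trans hb0β)
  have cDb : IsCoprime (star δ) b := by
    apply coprime_of_primes hb0
    intro ρ hρ h1 h2
    exact hDα ρ hρ h1 (h2.trans ⟨δ, by rw [hb]; ring⟩)
  have cDα : IsCoprime (star δ) α := by
    apply coprime_of_primes hαo.ne_zero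
    intro ρ hρ h1 h2
    have h4 : ρ ∣ γ := h1.trans ⟨c, hc⟩
    have h5 : ρ ∣ gT * gT * β := by
      have : gT * gT * β = γ - α := by
        rw [hγ]
        have : gT * gT = 2 * gI := by ext <;> simp
        rw [this]; ring
      rw [this]; exact dvd_sub h4 h2
    rcases hρ.dvd_or_dvd h5 with h6 | h6
    · have h7 : ρ ∣ gT := by rcases hρ.dvd_or_dvd h6 with h | h <;> exact h
      exact coprime_contra (coprime_gT hαo) hρ h7 h2
    · exact hcop ρ hρ h2 h6
  have cδα : IsCoprime δ α := by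
    apply coprime_of_primes hαo.ne_zero
    intro ρ hρ h1 h2
    exact hcop ρ hρ h2 (h1.trans ⟨b, hb⟩)
  have cb0α : IsCoprime b0 α := by
    apply coprime_of_primes hαo.ne_zero
    intro ρ hρ h1 h2
    exact hcop ρ hρ h2 (h1.trans hb0β)
  have cb0c : IsCoprime b0 c := cbc.of_isCoprime_of_dvd_left hb0b
  have cb0cs : IsCoprime b0 (star c) := hbc.of_isCoprime_of_dvd_left hb0b
  -- `e'`
  obtain ⟨e', he'⟩ : ∃ e' : ℤ, e' = c.norm + 4 * b.norm := ⟨_, rfl⟩
  have hee : e = δ.norm * e' := by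
    have h1 : γ.norm = δ.norm * c.norm := by rw [hc, Zsqrtd.norm_mul, Zsqrtd.norm_conj]
    have h2 : β.norm = δ.norm * b.norm := by rw [hb, Zsqrtd.norm_mul]
    have h3 : e = γ.norm + 4 * β.norm := by
      rw [he, hH, norm_val γ, hγre, hγim, norm_val, norm_val]; ring
    rw [h3, h1, h2, he']; ring
  have heG : (e : GaussianInt) = δ * star δ * (e' : GaussianInt) := by
    rw [hee, Int.cast_mul, Zsqrtd.norm_eq_mul_conj]
  have he'G : (e' : GaussianInt) = c * star c + 4 * (b * star b) := by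
    rw [he', Int.cast_add, Int.cast_mul, Zsqrtd.norm_eq_mul_conj, Zsqrtd.norm_eq_mul_conj]
    simp
  have hc4 := norm_mod_four hco
  have he'4 : e' % 4 = 1 := by omega
  have he'2 : e' % 2 = 1 := by omega
  have hδ4 := norm_mod_four hδo
  have he4 : e % 4 = 1 := by
    rw [hee, Int.mul_emod, hδ4, he'4]; rfl
  have oe' : Od (e' : GaussianInt) := od_intCast.2 he'2
  have hst' : nst e' = e' := by unfold nst; rw [if_pos he'4]
  have hst : nst e = e := by unfold nst; rw [if_pos he4]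
  -- `π` has even imaginary part
  have hπo : Od π := by
    unfold Od; rw [hn]; omega
  have hπi : π.im % 2 = 0 := by
    rw [hπ]
    simp only [pow_two, Zsqrtd.im_add, Zsqrtd.im_mul]
    simp
    have : α.re * α.im + α.im * α.re + 8 * (β.re * β.im + β.im * β.re)
      = 2 * (α.re * α.im + 8 * (β.re * β.im)) := by ring
    rw [this]; omega
  -- (1), (2)
  have E1 : Q4 (e : GaussianInt) π = Q4 π δ * Q4 π (star δ) * Q4 π (e' : GaussianInt) := by
    have h1 := RG hπo hπi e (by omega)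
    rw [hst] at h1
    rw [h1, heG, Q4_mul_right _ (hδo.mul hD0).ne_zero oe'.ne_zero,
      Q4_mul_right _ hδo.ne_zero hD0.ne_zero]
  -- (3)
  have E3 : Q4 π δ = Q2 α δ := by
    rw [← Q2_eq_Q4_sq _ hδo]
    apply Q4_congr hδo
    refine ⟨8 * δ * b ^ 2, ?_⟩
    rw [hπ, hb]; ring
  have hαx : α = star δ * c - 2 * gI * β := by rw [← hc, hγ]; ring
  -- (4)
  have E4 : Q4 π (star δ) = Q2 gI (star δ) * Q2 α (star δ) := by
    have h1 : Q4 π (star δ) = Q2 (2 * β) (star δ) := by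
      rw [← Q2_eq_Q4_sq _ hD0]
      apply Q4_congr hD0
      refine ⟨star δ * c ^ 2 - 4 * gI * c * β, ?_⟩
      rw [hπ, hαx]
      linear_combination (4 * β ^ 2) * gI_mul_gI
    rw [h1, ← Q2_mul_left _ _ hD0]
    apply Q2_congr hD0
    refine ⟨-(gI * c), ?_⟩
    rw [hαx]
    linear_combination (2 * β) * gI_mul_gI
  -- (5)
  have E5 : Q2 α δ * Q2 α (star δ) = Q2 δ α * Q2 (star δ) α := by
    rw [Q2_recip' hαo hαi hδo hδim cδα.symm, Q2_recip' hαo hαi hD0 hDim cDα.symm]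
  -- (6)
  have h8H : (8 * H : GaussianInt) = -4 * gI * (star α * β - α * star β) := by
    rw [hH]; ext <;> simp <;> ring
  have idm : (e' : GaussianInt) ∣ gI * star c * π - ((-8 * H : ℤ) : GaussianInt) * b := by
    have hsα : star α = δ * star c + 2 * gI * star β := by
      rw [hαx, star_sub, star_mul, star_star, star_mul, star_mul]
      have : star gI = -gI := by ext <;> simp
      rw [this, star_ofNat]; ring
    have hsβ : star β = star δ * star b := by rw [hb, star_mul]; ring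
    refine ⟨star δ * (gI * (star δ * c) + 4 * (δ * b)), ?_⟩
    have h1 : ((-8 * H : ℤ) : GaussianInt) = -(8 * H) := by push_cast; ring
    rw [h1, h8H, hπ, he'G, hsα, hsβ, hαx, hb]
    linear_combination (-4 * star c * star δ * c * δ * b + 4 * gI * star c * δ ^ 2 * b ^ 2
      - 16 * star δ * star b * δ * b ^ 2) * gI_mul_gI
  have cH : IsCoprime (-8 * H) e' := by
    have c8 : IsCoprime (-8 : ℤ) e' := by
      have h2 : IsCoprime (2 : ℤ) e' := by
        obtain ⟨t, ht⟩ : ∃ t, e' = 2 * t + 1 := ⟨e' / 2, by omega⟩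
        exact ⟨-t, 1, by rw [ht]; ring⟩
      have h3 : IsCoprime ((2 : ℤ) ^ 3) e' := h2.pow_left
      have h4 : (-8 : ℤ) = -(2 ^ 3) := by norm_num
      rw [h4]; exact h3.neg_left
    apply IsCoprime.mul_left c8
    rw [Int.isCoprime_iff_gcd_eq_one]
    by_contra hg
    obtain ⟨q, hq, hqg⟩ := Nat.exists_prime_and_dvd hg
    have h1 : (q : ℤ) ∣ H := (Int.natCast_dvd_natCast.2 hqg).trans (Int.gcd_dvd_left ..)
    have h2 : (q : ℤ) ∣ e' := (Int.natCast_dvd_natCast.2 hqg).trans (Int.gcd_dvd_right ..)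
    have h3 : (q : ℤ) ∣ e := by rw [hee]; exact h2.mul_left _
    have h4 : (q : ℤ) ∣ s := by
      have : s = e + 4 * H := by rw [hes]; ring
      rw [this]; exact dvd_add h3 (h1.mul_left _)
    have h5 : (q : ℤ) ∣ p := by
      rw [hps]
      exact dvd_sub (dvd_pow h4 two_ne_zero) ((dvd_pow h1 two_ne_zero).mul_left _)
    have h6 : q ∣ p := by exact_mod_cast h5
    rw [(Nat.prime_dvd_prime_iff_eq hq hp).1 h6] at h3
    exact hpe h3
  have ce'c : IsCoprime c (e' : GaussianInt) := by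
    apply coprime_of_primes oe'.ne_zero
    intro ρ hρ h1 h2
    have ho : Od ρ := hco.of_dvd h1
    have h3 : ρ ∣ gT ^ 4 * (b * star b) := by
      have : gT ^ 4 * (b * star b) = c * star c - (e' : GaussianInt) := by
        rw [he'G]
        have : gT ^ 4 = -4 := by rw [pow_succ, pow_succ, pow_two]; ext <;> simp
        rw [this]; ring
      rw [this]; exact dvd_sub (h1.mul_right _) h2
    rcases hρ.dvd_or_dvd h3 with h4 | h4
    · exact coprime_contra (coprime_gT ho) hρ (hρ.dvd_of_dvd_pow h4) dvd_rfl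
    · rcases hρ.dvd_or_dvd h4 with h5 | h5
      · exact coprime_contra cbc hρ h5 h1
      · exact coprime_contra (cop_star hbc) hρ h5 h1
  have E6 : Q4 π (e' : GaussianInt) = Q4 gI (e' : GaussianInt) *
      (Q4 b (e' : GaussianInt) * Q4 c (e' : GaussianInt)) := by
    have h1 : Q4 (gI * star c * π) (e' : GaussianInt) = Q4 b (e' : GaussianInt) := by
      rw [Q4_congr oe' idm, Q4_mul_left _ _ oe', Q4_int_int he'2 cH, one_mul]
    rw [Q4_mul_left _ _ oe', Q4_mul_left _ _ oe'] at h1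
    have h2 : Q4 (star c) (e' : GaussianInt) = star (Q4 c (e' : GaussianInt)) := by
      have := Q4_star c oe'
      rwa [star_intCast] at this
    have hu := unit_mul_star (Q4_isUnit oe' ce'c)
    have hi : Q4 gI (e' : GaussianInt) * Q4 gI (e' : GaussianInt) = 1 := by
      rw [Q4_gI_int he'2]; exact pm_sq (ite_pm _)
    rw [h2] at h1
    rw [← h1]
    linear_combination (-(Q4 gI (e' : GaussianInt) * Q4 gI (e' : GaussianInt) *
      Q4 π (e' : GaussianInt))) * hu - Q4 π (e' : GaussianInt) * hi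
  -- (7)
  have E7 : Q4 c (e' : GaussianInt) = Q4 4 c * Q4 b c * Q4 (star b) c := by
    have h1 := RG hco hcim e' he'2
    rw [hst'] at h1
    rw [← h1, ← Q4_mul_left _ _ hco, ← Q4_mul_left _ _ hco]
    apply Q4_congr hco
    refine ⟨star c, ?_⟩
    rw [he'G]; ring
  -- (8)
  have hNc4 : nst c.norm = c.norm := by unfold nst; rw [if_pos hc4]
  have E8 : Q4 b0 (e' : GaussianInt) = Q4 b0 c * Q4 b0 (star c) := by
    have h1 := RG hb0o hb0im e' he'2
    rw [hst'] at h1
    have h2 := RG hb0o hb0im c.norm (by omega)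
    rw [hNc4] at h2
    rw [← h1, ← Q4_mul_right _ hco.ne_zero hco.star.ne_zero, ← Zsqrtd.norm_eq_mul_conj, ← h2]
    apply Q4_congr hb0o
    refine ⟨4 * κ * star b, ?_⟩
    rw [he'G, Zsqrtd.norm_eq_mul_conj]
    have : b * star b = κ * b0 * star b := by rw [← hbk]
    rw [this]; ring
  have E9 : Q4 b (e' : GaussianInt) = Q4 κ (e' : GaussianInt) * Q4 b0 (e' : GaussianInt) := by
    rw [← Q4_mul_left _ _ oe', ← hbk]
  have E10 : Q4 b c = Q4 κ c * Q4 b0 c := by
    rw [← Q4_mul_left _ _ hco, ← hbk]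
  have E11 : Q4 (star b) c = Q4 (star κ) c * Q4 (star b0) c := by
    rw [← Q4_mul_left _ _ hco, hbk, star_mul]; congr 1; ring
  have E12 : Q4 (star b0) c * Q4 b0 (star c) = 1 := by
    have h1 : Q4 (star b0) c = star (Q4 b0 (star c)) := by
      have := Q4_star b0 hco.star
      rwa [star_star] at this
    rw [h1, mul_comm]
    exact unit_mul_star (Q4_isUnit hco.star cb0cs)
  -- (10)
  have E13 : Q2 b0 α = Q2 b0 (star δ) * Q2 b0 c := by
    rw [Q2_recip' hb0o hb0im hαo hαi cb0α, Q2_recip' hb0o hb0im hD0 hDim cDb0.symm,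
      Q2_recip' hb0o hb0im hco hcim cb0c, ← Q2_mul_left _ _ hb0o]
    apply Q2_congr hb0o
    obtain ⟨t, ht⟩ := hb0β
    refine ⟨-(2 * gI * t), ?_⟩
    have : α - star δ * c = -(2 * gI * β) := by rw [hαx]; ring
    rw [this, ht]; ring
  -- δ is primitive
  have hprim : IsCoprime δ.re (-δ.im) := by
    rw [IsCoprime.neg_right_iff, Int.isCoprime_iff_gcd_eq_one]
    obtain ⟨g, hg⟩ : ∃ g, g = Int.gcd δ.re δ.im := ⟨_, rfl⟩
    rw [← hg]
    have h1 : ((g : ℤ) : GaussianInt) ∣ δ := by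
      rw [intCast_dvd', hg]
      exact ⟨Int.gcd_dvd_left .., Int.gcd_dvd_right ..⟩
    have h2 : ((g : ℤ) : GaussianInt) ∣ star δ := by
      rw [intCast_dvd', hg]
      refine ⟨by simpa using Int.gcd_dvd_left .., ?_⟩
      rw [Zsqrtd.im_star]
      exact (Int.gcd_dvd_right ..).neg_right
    have h3 := cDδ.isUnit_of_dvd' h2 h1
    rw [unit_iff, Zsqrtd.norm_intCast] at h3
    have h4 : g * g = 1 := by exact_mod_cast h3
    exact Nat.eq_one_of_mul_eq_one_right h4
  have hDeq : star δ = (⟨δ.re, -δ.im⟩ : GaussianInt) := by ext <;> simp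
  -- (12)
  have E14 : Q2 δ (star δ) = Q2 gI (star δ) := by
    have h1 : Q2 δ (star δ) = Q2 (2 * (δ.re : GaussianInt)) (star δ) := by
      apply Q2_congr hD0
      refine ⟨-1, ?_⟩
      ext <;> simp; ring
    have h2 : Q2 (δ.re : GaussianInt) (star δ) = 1 := by
      rw [hDeq]
      exact Q2_re hδre (by omega) hprim (by rw [← hDeq]; exact hD0)
    rw [h1, Q2_mul_left _ _ hD0, h2, mul_one, Q2_two hD0]
  -- (11)
  have E15 : Q2 (star δ) α = Q2 gI (star δ) * Q2 κ (star δ) * Q2 b0 (star δ) := by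
    rw [Q2_recip' hD0 hDim hαo hαi cDα]
    have h1 : Q2 α (star δ) = Q2 (gT * gT * (δ * (κ * b0))) (star δ) := by
      rw [← Q2_neg_left α hD0]
      apply Q2_congr hD0
      refine ⟨-c, ?_⟩
      rw [hαx, ← hbk, ← hb]
      have : gT * gT = 2 * gI := by ext <;> simp
      rw [this]; ring
    rw [h1, Q2_mul_left _ _ hD0, Q2_mul_left _ _ hD0, Q2_sq hD0 (coprime_gT hD0), one_mul,
      Q2_mul_left _ _ hD0, E14, Q2_mul_left _ _ hD0]
    ring
  have E16 : Q2 β α = Q2 δ α * (Q2 κ α * Q2 b0 α) := by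
    rw [← Q2_mul_left _ _ hαo, ← Q2_mul_left _ _ hαo, ← hbk, ← hb]
  -- the signs
  have hγ' : (star δ * c).re % 2 = 1 ∧ (star δ * c).im % 2 = 0 := by
    rw [← hc, hγre, hγim]; omega
  have hz : (δ * b0).re % 2 = 1 ∧ (δ * b0).im % 2 = 0 := by
    obtain ⟨a1, ha1⟩ : ∃ t, δ.re = 2 * t + 1 := ⟨δ.re / 2, by omega⟩
    obtain ⟨a2, ha2⟩ : ∃ t, δ.im = 2 * t := ⟨δ.im / 2, by omega⟩
    obtain ⟨a3, ha3⟩ : ∃ t, b0.re = 2 * t + 1 := ⟨b0.re / 2, by omega⟩
    obtain ⟨a4, ha4⟩ : ∃ t, b0.im = 2 * t := ⟨b0.im / 2, by omega⟩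
    constructor
    · simp only [Zsqrtd.re_mul]; rw [ha1, ha2, ha3, ha4]; ring_nf; omega
    · simp only [Zsqrtd.im_mul]; rw [ha1, ha2, ha3, ha4]; ring_nf; omega
  have hκn : b.norm = 2 ^ m * b0.norm := by
    have e1 : (gI : GaussianInt).norm = 1 := by rw [norm_val]; norm_num
    have e2 : (gT : GaussianInt).norm = 2 := by rw [norm_val]; norm_num
    rw [hbk, Zsqrtd.norm_mul, hκ, Zsqrtd.norm_mul, norm_pow', norm_pow', e1, e2, one_pow, one_mul]
  have F := fin_sign (e' := e') (Nb := b.norm) (n0 := b0.norm) hk hαx hγ'.1 hγ'.2 hz.1 hz.2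
    (by rw [hb, hbk, hκ]; ring) hcre hcim he' hb0o hκn
  have Ka : Q2 κ α = Q2 gI α ^ k * Q2 gT α ^ m := by rw [hκ]; exact Q2_kappa hαo k m
  have KD : Q2 κ (star δ) = Q2 gI (star δ) ^ k * Q2 gT (star δ) ^ m := by
    rw [hκ]; exact Q2_kappa hD0 k m
  have Ke : Q4 κ (e' : GaussianInt) = Q4 gI (e' : GaussianInt) ^ k * Q4 gT (e' : GaussianInt) ^ m := by
    rw [hκ, Q4_mul_left _ _ oe', Q4_pow_left _ _ oe', Q4_pow_left _ _ oe']
  have Kc : Q4 4 c * Q4 κ c * Q4 (star κ) c = Q2 gI c * (Q4 (-gI) c * Q2 gT c) ^ m := by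
    have h1 : Q4 4 c = Q2 gI c := by
      have : (4 : GaussianInt) = 2 ^ 2 := by norm_num
      rw [this, Q2_eq_Q4_sq _ hco, Q2_two hco]
    have h2 : κ * star κ = ((-gI) * gT ^ 2) ^ m := by
      rw [← two_eq, hκ, star_mul, star_pow, star_pow]
      have e1 : gI * star gI = 1 := by ext <;> simp
      have e2 : gT * star gT = 2 := by ext <;> simp
      calc gI ^ k * gT ^ m * (star gT ^ m * star gI ^ k) = (gI * star gI) ^ k * (gT * star gT) ^ m := by
            rw [mul_pow, mul_pow]; ring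
        _ = 2 ^ m := by rw [e1, e2, one_pow, one_mul]
    rw [mul_assoc, ← Q4_mul_left _ _ hco, h2, Q4_pow_left _ _ hco, Q4_mul_left _ _ hco,
      Q2_eq_Q4_sq _ hco, h1]
  have X1 : Q2 gI (star δ * c) = Q2 gI (star δ) * Q2 gI c := Q2_mul_right _ hD0.ne_zero hco.ne_zero
  have X2 : Q2 gT (star δ * c) = Q2 gT (star δ) * Q2 gT c := Q2_mul_right _ hD0.ne_zero hco.ne_zero
  have s1 : Q2 gI α * Q2 gI α = 1 := by rw [Q2_gI' hα hαi]; exact pm_sq (ite_pm _)
  have s2 : Q2 gT α * Q2 gT α = 1 := Q2_sq hαo (coprime_gT hαo)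
  have s3 : Q2 gI c * Q2 gI c = 1 := by rw [Q2_gI' hcre hcim]; exact pm_sq (ite_pm _)
  have s4 : Q2 gI (star δ) * Q2 gI (star δ) = 1 := by
    rw [Q2_gI' hDre hDim]; exact pm_sq (ite_pm _)
  rw [X1, X2] at F
  have Y := sign_alg k m (Q2 gI α) (Q2 gT α) (Q2 gI (star δ)) (Q2 gT (star δ)) (Q2 gI c) (Q2 gT c)
    (Q4 gI (e' : GaussianInt)) (Q4 gT (e' : GaussianInt)) (Q4 (-gI) c) s1 s2 s3
  rw [F, ← Ka, ← KD, ← Ke, ← Kc] at Y
  rw [E16, mul_assoc, mul_assoc, mul_comm (Q2 b0 α), ← mul_assoc (Q2 κ α), Y, E1, E3, E4, E6, E9,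
    E8, E7, E10, E11, E13]
  have hQ2 : Q2 b0 c = Q4 b0 c * Q4 b0 c := by unfold Q2; rw [pow_two]
  rw [hQ2]
  linear_combination (Q2 gI (star δ) * Q4 gI (e' : GaussianInt) * Q4 κ (e' : GaussianInt) *
      Q4 b0 c * Q4 b0 (star c) * Q4 4 c * Q4 κ c * Q4 b0 c * Q4 (star κ) c * Q4 (star b0) c) * E5
    + (Q2 δ α * Q2 gI (star δ) * Q4 gI (e' : GaussianInt) * Q4 κ (e' : GaussianInt) *
      Q4 b0 c * Q4 b0 (star c) * Q4 4 c * Q4 κ c * Q4 b0 c * Q4 (star κ) c * Q4 (star b0) c) * E15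
    + (Q2 δ α * Q2 κ (star δ) * Q2 b0 (star δ) * Q4 gI (e' : GaussianInt) *
      Q4 κ (e' : GaussianInt) * Q4 b0 c * Q4 b0 (star c) * Q4 4 c * Q4 κ c * Q4 b0 c *
      Q4 (star κ) c * Q4 (star b0) c) * s4
    + (Q2 δ α * Q2 κ (star δ) * Q2 b0 (star δ) * Q4 gI (e' : GaussianInt) *
      Q4 κ (e' : GaussianInt) * Q4 b0 c * Q4 4 c * Q4 κ c * Q4 b0 c * Q4 (star κ) c) * E12

/-- `(e/π)_4 = (β/α)_2 * sign`, `π = α² + 8β²`, `e = 8|β|² + |α|² - 4H`, `H = Im(conj α * β)` -/
theorem quart_step (α β : GaussianInt) (hα : Od α) (p : ℕ) (hp : p.Prime)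
    (hn : (α ^ 2 + 8 * β ^ 2).norm = (p : ℤ)) (H e : ℤ) (hH : H = α.re * β.im - α.im * β.re)
    (he : e = 8 * β.norm + α.norm - 4 * H) :
    Q4 (e : GaussianInt) (α ^ 2 + 8 * β ^ 2) = Q2 β α *
      (if α.im % 2 = 0 then (if β.re % 2 = 0 then 1 else -1)
       else (if β.im % 2 = 0 then 1 else -1) * (if α.re % 4 = 0 then 1 else -1)) := by
  have hpar : (α.re + α.im) % 2 = 1 := by
    have := norm_parity α
    unfold Od at hα
    omega
  by_cases hi : α.im % 2 = 0
  · rw [if_pos hi]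
    exact quart_even α β (by omega) hi p hp hn H e hH he
  · rw [if_neg hi]
    have e1 : (gI * α).re = -α.im := by simp
    have e2 : (gI * α).im = α.re := by simp
    have e3 : (gI * β).re = -β.im := by simp
    have e4 : (gI * β).im = β.re := by simp
    have hπ : (gI * α) ^ 2 + 8 * (gI * β) ^ 2 = -(α ^ 2 + 8 * β ^ 2) := by
      linear_combination (α ^ 2 + 8 * β ^ 2) * gI_mul_gI
    have hnn : ((gI * α) ^ 2 + 8 * (gI * β) ^ 2).norm = (p : ℤ) := by
      rw [hπ, Zsqrtd.norm_neg, hn]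
    have hNa : (gI * α).norm = α.norm := by rw [norm_val, norm_val, e1, e2]; ring
    have hNb : (gI * β).norm = β.norm := by rw [norm_val, norm_val, e3, e4]; ring
    have h := quart_even (gI * α) (gI * β) (by rw [e1]; omega) (by rw [e2]; omega) p hp hnn H e
      (by rw [e1, e2, e3, e4, hH]; ring) (by rw [hNa, hNb, he])
    rw [hπ, Q4_neg_right, Q2_unit_mul _ isUnit_gI, Q2_mul_left _ _ hα, e3] at h
    rw [h]
    have hgI : Q2 gI α = if α.re % 4 = 0 then 1 else -1 := by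
      have h1 : Q2 gI (gI * α) = Q2 gI α := Q2_unit_mul _ isUnit_gI _
      rw [← h1, Q2_gI' (by rw [e1]; omega) (by rw [e2]; omega), e2]
    rw [hgI]
    have h5 : (-β.im % 2 = 0) = (β.im % 2 = 0) := by apply propext; omega
    simp only [h5]
    ring

end Pool.Agent.TM32

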