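import Pool.Agent.Lib_helper82.Quartic.Quad

/-!
Supplementary laws for the quartic symbol, general quadratic reciprocity in `ℤ[i]`.
-/

set_option autoImplicit false

namespace Pool.Agent.TM32

open Zsqrtd Pool.Agent.Quartic82

/-- `i` as a unit -/
def gU : GaussianIntˣ := ⟨gI, -gI, by ext <;> simp, by ext <;> simp⟩

theorem gU_four : gU ^ (4 : ℕ) = 1 := by
  apply Units.ext
  rw [Units.val_pow_eq_pow_val]
  exact unit_pow_four isUnit_gI

/-- `i^t` -/
def iz (t : ℤ) : GaussianInt := ((gU ^ t : GaussianIntˣ) : GaussianInt)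

theorem iz_add (s t : ℤ) : iz (s + t) = iz s * iz t := by
  unfold iz; rw [zpow_add, Units.val_mul]

theorem iz_zero : iz 0 = 1 := by simp [iz]

theorem iz_four (t : ℤ) : iz (4 * t) = 1 := by
  unfold iz
  rw [zpow_mul]
  have : gU ^ (4 : ℤ) = 1 := by
    have := gU_four
    exact_mod_cast this
  rw [this, one_zpow]; rfl

theorem iz_two (t : ℤ) : iz (2 * t) = if t % 2 = 0 then 1 else -1 := by
  obtain ⟨k, hk | hk⟩ := Int.even_or_odd' t
  · rw [if_pos (by omega), hk, show 2 * (2 * k) = 4 * k by ring, iz_four]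
  · rw [if_neg (by omega), hk, show 2 * (2 * k + 1) = 4 * k + 2 by ring, iz_add, iz_four, one_mul]
    unfold iz
    have : gU ^ (2 : ℤ) = -1 := by
      apply Units.ext
      have h : gU ^ (2 : ℤ) = gU ^ (2 : ℕ) := by norm_cast
      rw [h, Units.val_pow_eq_pow_val, Units.val_neg, Units.val_one]
      exact gI_sq
    rw [this]; rfl

theorem iz_nat (n : ℕ) : iz n = gI ^ n := by
  unfold iz
  rw [zpow_natCast, Units.val_pow_eq_pow_val]; rfl

theorem iz_neg_nat (n : ℕ) : iz (-(n : ℤ)) = (-gI) ^ n := by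
  unfold iz
  rw [zpow_neg, zpow_natCast, ← inv_pow, Units.val_pow_eq_pow_val]; rfl

theorem iz_unit (t : ℤ) : IsUnit (iz t) := Units.isUnit _

/-- `(i/β)_4 = i^((Nβ-1)/4)` -/
theorem Q4_gI' {β : GaussianInt} (hβ : Od β) : Q4 gI β = iz ((β.norm - 1) / 4) := by
  rw [Q4_gI hβ, ← iz_nat]
  have h1 := norm_mod_four hβ
  have h2 := norm_nn β
  congr 1
  omega

/-- `(i/n)_4` for odd `n` -/
theorem Q4_gI_int {n : ℤ} (hn : n % 2 = 1) :
    Q4 gI (n : GaussianInt) = if n % 8 = 1 ∨ n % 8 = 7 then 1 else -1 := by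
  rw [Q4_gI' (od_intCast.2 hn), Zsqrtd.norm_intCast]
  obtain ⟨k, hk⟩ : ∃ k, n = 2 * k + 1 := ⟨n / 2, by omega⟩
  obtain ⟨l, hl⟩ : ∃ l, k * (k + 1) = 2 * l := (Int.even_mul_succ_self k).two_dvd
  have e : (n * n - 1) / 4 = 2 * l := by
    have : n * n - 1 = 4 * (2 * l) := by rw [← hl, hk]; ring
    rw [this]; exact Int.mul_ediv_cancel_left _ (by norm_num)
  rw [e, iz_two]
  have h8 : n * n = 1 + 8 * l := by
    have : n * n - 1 = 4 * (2 * l) := by rw [← hl, hk]; ring
    linarith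
  congr 1
  -- l even iff n = ±1 mod 8
  apply propext
  have h16 : (n * n) % 16 = (n % 16) * (n % 16) % 16 := Int.mul_emod _ _ _
  have h9 : n % 16 = 1 ∨ n % 16 = 3 ∨ n % 16 = 5 ∨ n % 16 = 7 ∨ n % 16 = 9 ∨ n % 16 = 11 ∨
    n % 16 = 13 ∨ n % 16 = 15 := by omega
  rcases h9 with h | h | h | h | h | h | h | h <;> rw [h] at h16 <;> norm_num at h16 <;> omega

theorem gT_eq : gT = gI * star gT := by ext <;> simp

theorem Q2_gT_int' {n : ℤ} (hn : n % 2 = 1) : Q2 gT (n : GaussianInt) = Q4 gI (n : GaussianInt) := by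
  have ho : Od (n : GaussianInt) := od_intCast.2 hn
  rw [gT_eq, Q2_mul_left _ _ ho, Q2_gI_int hn, one_mul, Q2_gT_int hn]

/-- an odd element with even imaginary part is a rational integer times a primitive one -/
theorem dec {x : GaussianInt} (hre : x.re % 2 = 1) (him : x.im % 2 = 0) :
    ∃ n c d : ℤ, n % 2 = 1 ∧ c % 2 = 1 ∧ d % 2 = 0 ∧ IsCoprime c d ∧
      x = (n : GaussianInt) * (⟨c, d⟩ : GaussianInt) := by
  obtain ⟨c, hc⟩ := Int.gcd_dvd_left x.re x.im
  obtain ⟨d, hd⟩ := Int.gcd_dvd_right x.re x.im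
  obtain ⟨n, hn⟩ : ∃ n : ℤ, n = (Int.gcd x.re x.im : ℤ) := ⟨_, rfl⟩
  rw [← hn] at hc hd
  have hn0 : n ≠ 0 := by
    intro h
    rw [h] at hc
    omega
  have h1 : n % 2 = 1 ∧ c % 2 = 1 := by
    rw [hc, Int.mul_emod] at hre
    rcases Int.emod_two_eq_zero_or_one n with h | h <;>
    rcases Int.emod_two_eq_zero_or_one c with h' | h' <;> simp [h, h'] at hre ⊢
  refine ⟨n, c, d, h1.1, h1.2, ?_, ?_, ?_⟩
  · rw [hd, Int.mul_emod, h1.1] at him
    simpa using him
  · rw [Int.isCoprime_iff_gcd_eq_one]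
    have h2 : Int.gcd (n * c) (n * d) = n.natAbs * Int.gcd c d := Int.gcd_mul_left _ _ _
    rw [← hc, ← hd] at h2
    have h3 : (n.natAbs : ℤ) = n := by rw [hn]; simp
    have h4 : n.natAbs = Int.gcd x.re x.im := by omega
    rw [← h4] at h2
    have h5 : 0 < n.natAbs := Int.natAbs_pos.2 hn0
    exact Nat.eq_of_mul_eq_mul_left h5 (by rw [mul_one]; exact h2.symm)
  · ext
    · simp only [Zsqrtd.re_mul, Zsqrtd.re_intCast, Zsqrtd.im_intCast]
      rw [hc]; ring
    · simp only [Zsqrtd.im_mul, Zsqrtd.re_intCast, Zsqrtd.im_intCast]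
      rw [hd]; ring

theorem od_of_re {x : GaussianInt} (hre : x.re % 2 = 1) (him : x.im % 2 = 0) : Od x := by
  unfold Od
  rw [norm_val]
  obtain ⟨k, hk⟩ : ∃ k, x.re = 2 * k + 1 := ⟨x.re / 2, by omega⟩
  obtain ⟨m, hm⟩ : ∃ m, x.im = 2 * m := ⟨x.im / 2, by omega⟩
  rw [hk, hm]; ring_nf; omega

/-- general quadratic reciprocity in `ℤ[i]` -/
theorem Q2_recip' {x y : GaussianInt} (hx : Od x) (hxi : x.im % 2 = 0) (hy : Od y)
    (hyi : y.im % 2 = 0) (h : IsCoprime x y) : Q2 x y = Q2 y x := by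
  obtain ⟨n, a, b, hn, ha, hb, hab, hx'⟩ := dec (od_im_even_re hx hxi) hxi
  obtain ⟨m, c, d, hm, hc, hd, hcd, hy'⟩ := dec (od_im_even_re hy hyi) hyi
  have o1 : Od (⟨a, b⟩ : GaussianInt) := od_of_re ha hb
  have o2 : Od (⟨c, d⟩ : GaussianInt) := od_of_re hc hd
  have o3 : Od (n : GaussianInt) := od_intCast.2 hn
  have o4 : Od (m : GaussianInt) := od_intCast.2 hm
  rw [hx', hy'] at h
  have c1 : IsCoprime (n : GaussianInt) (m : GaussianInt) := h.of_mul_left_left.of_mul_right_left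
  have c2 : IsCoprime (n : GaussianInt) (⟨c, d⟩ : GaussianInt) :=
    h.of_mul_left_left.of_mul_right_right
  have c3 : IsCoprime (⟨a, b⟩ : GaussianInt) (m : GaussianInt) :=
    h.of_mul_left_right.of_mul_right_left
  have c4 : IsCoprime (⟨a, b⟩ : GaussianInt) (⟨c, d⟩ : GaussianInt) :=
    h.of_mul_left_right.of_mul_right_right
  rw [hx', hy', Q2_mul_left _ _ (o4.mul o2), Q2_mul_right _ o4.ne_zero o2.ne_zero,
    Q2_mul_right _ o4.ne_zero o2.ne_zero, Q2_mul_left _ _ (o3.mul o1),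
    Q2_mul_right _ o3.ne_zero o1.ne_zero, Q2_mul_right _ o3.ne_zero o1.ne_zero,
    Q2_int_int hm (coprime_int_of c1), Q2_int_int hn (coprime_int_of c1.symm),
    RG2 o2 hd n hn, RG2 o1 hb m hm, Q2_recip ha hb hc hd hab hcd c4 o1 o2]
  ring

theorem Q4_gI_mul {m n : ℤ} (hm : m % 2 = 1) (hn : n % 2 = 1) :
    Q4 gI ((m * n : ℤ) : GaussianInt) = Q4 gI (m : GaussianInt) * Q4 gI (n : GaussianInt) := by
  rw [Int.cast_mul, Q4_mul_right _ (od_intCast.2 hm).ne_zero (od_intCast.2 hn).ne_zero]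

/-- `((1+i)/x)_2` -/
theorem Q2_gT' {x : GaussianInt} (hre : x.re % 2 = 1) (him : x.im % 2 = 0) :
    Q2 gT x = if (x.re + x.im) % 8 = 1 ∨ (x.re + x.im) % 8 = 7 then 1 else -1 := by
  obtain ⟨n, a, b, hn, ha, hb, hab, hx'⟩ := dec hre him
  have o1 : Od (⟨a, b⟩ : GaussianInt) := od_of_re ha hb
  have o3 : Od (n : GaussianInt) := od_intCast.2 hn
  have hs : (a + b) % 2 = 1 := by omega
  have e : x.re + x.im = n * (a + b) := by
    rw [hx']
    simp only [Zsqrtd.re_mul, Zsqrtd.im_mul, Zsqrtd.re_intCast, Zsqrtd.im_intCast]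
    ring
  have h1 : Q2 gT x = Q4 gI ((x.re + x.im : ℤ) : GaussianInt) := by
    rw [e, Q4_gI_mul hn hs]
    conv_lhs => rw [hx']
    rw [Q2_mul_right _ o3.ne_zero o1.ne_zero, Q2_gT_int' hn, Q2_gT ha hb hab o1]
  rw [h1, Q4_gI_int]
  omega

/-- `(i/x)_2` -/
theorem Q2_gI' {x : GaussianInt} (hre : x.re % 2 = 1) (him : x.im % 2 = 0) :
    Q2 gI x = if x.im % 4 = 0 then 1 else -1 := by
  have ho := od_of_re hre him
  have h0 : Q2 gI x = iz (2 * ((x.norm - 1) / 4)) := by
    unfold Q2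
    rw [Q4_gI' ho, pow_two, ← iz_add, ← two_mul]
  rw [h0, iz_two]
  have h1 : x.norm = x.re ^ 2 + x.im ^ 2 := norm_val x
  obtain ⟨k, hk⟩ : ∃ k, x.re = 2 * k + 1 := ⟨x.re / 2, by omega⟩
  obtain ⟨m, hm⟩ : ∃ m, x.im = 2 * m := ⟨x.im / 2, by omega⟩
  obtain ⟨l, hl⟩ : ∃ l, k * (k + 1) = 2 * l := (Int.even_mul_succ_self k).two_dvd
  have h2 : x.norm = 1 + 4 * (2 * l + m ^ 2) := by
    rw [h1, hk, hm]; linear_combination 4 * hl
  have h3 : (x.norm - 1) / 4 = 2 * l + m ^ 2 := by omega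
  rw [h3]
  congr 1
  apply propext
  have h4 : m ^ 2 % 2 = m % 2 := by
    rcases Int.emod_two_eq_zero_or_one m with h | h <;> simp [pow_two, Int.mul_emod, h]
  omega

/-- `((1+i)/n)_4` for rational odd `n` -/
theorem Q4_gT_int : ∀ n : ℤ, n % 2 = 1 → Q4 gT (n : GaussianInt) = iz ((nst n - 1) / 4) := by
  apply odd_int_induction
  · rw [Int.cast_one, Q4_unit_right _ isUnit_one]
    have : (nst 1 - 1) / 4 = 0 := by decide
    rw [this, iz_zero]
  · intro n hn ih
    rw [Int.cast_neg, Q4_neg_right, nst_neg hn, ih]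
  · intro q n hq hq2 hn ih
    have hqo : Od (q : GaussianInt) := by rw [od_natCast]; exact hq2
    have hno : Od (n : GaussianInt) := by rw [od_intCast]; exact hn
    have hq1 : Q4 gT (q : GaussianInt) = iz ((nst q - 1) / 4) := by
      have := Fact.mk hq
      have h4 : q % 4 = 1 ∨ q % 4 = 3 := by omega
      rcases h4 with h | h
      · obtain ⟨ρ, hn, hρp, ho, hs⟩ := exists_split hq h
        rw [hs, Q4_mul_right _ ho.ne_zero ho.star.ne_zero]
        have e1 : Q4 gT (star ρ) = star (Q4 (star gT) ρ) := by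
          have := Q4_star (star gT) ho
          rwa [star_star] at this
        have e2 : Q4 gT ρ = Q4 gI ρ * Q4 (star gT) ρ := by
          rw [← Q4_mul_left _ _ ho, ← gT_eq]
        have hu : IsUnit (Q4 (star gT) ρ) := by
          apply Q4_isUnit ho
          have h5 : IsCoprime gT ρ := coprime_gT ho
          rw [gT_eq] at h5
          exact h5.of_mul_left_right
        rw [e1, e2, mul_assoc, unit_mul_star hu, mul_one, Q4_gI' ho, hn]
        have : nst (q : ℤ) = q := by unfold nst; rw [if_pos (by omega)]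
        rw [this]
      · have hρp : Prime (q : GaussianInt) := GaussianInt.prime_of_nat_prime_of_mod_four_eq_three q h
        rw [Q4_prime _ hρp]
        obtain ⟨k, hk⟩ : ∃ k, q = 4 * k + 3 := ⟨q / 4, by omega⟩
        have e0 : (nst (q : ℤ) - 1) / 4 = -((k + 1 : ℕ) : ℤ) := by
          unfold nst; rw [if_neg (by omega)]; push_cast; omega
        rw [e0, iz_neg_nat]
        apply psym_eq hρp hqo (isUnit_gI.neg.pow _)
        have hN : (q : GaussianInt).norm.natAbs = q * q := by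
          rw [Zsqrtd.norm_natCast]; simp [Int.natAbs_mul]
        rw [hN]
        have e2 : (q * q - 1) / 4 = (q - 1) * (k + 1) := by
          have e3 : q * q - 1 = 4 * ((q - 1) * (k + 1)) := by
            rw [hk]
            have : 4 * k + 3 - 1 = 4 * k + 2 := by omega
            rw [this]
            zify
            rw [Nat.cast_sub (by nlinarith)]
            push_cast; ring
          rw [e3, Nat.mul_div_cancel_left _ (by norm_num)]
        have h5 := frob_star hq h gT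
        have h6 : (q : GaussianInt) ∣ gT ^ (q - 1) - -gI := by
          have e3 : gT * (gT ^ (q - 1) - -gI) = gT ^ q - star gT := by
            have : gT ^ q = gT ^ (q - 1) * gT := by
              rw [← pow_succ]; congr 1; omega
            rw [this]
            have e4 : star gT = -gI * gT := by ext <;> simp
            rw [e4]; ring
          rw [← e3] at h5
          rcases hρp.dvd_or_dvd h5 with h7 | h7
          · exfalso
            have h8 := coprime_gT hqo
            exact hρp.not_isUnit (h8.isUnit_of_dvd' h7 dvd_rfl)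
          · exact h7
        rw [e2, pow_mul]
        exact dvd_pow_sub_pow h6 _
    rw [Int.cast_mul, Int.cast_natCast, Q4_mul_right _ hqo.ne_zero hno.ne_zero, hq1, ih, ← iz_add,
      nst_mul (by omega) hn]
    have h1 : nst (q : ℤ) % 4 = 1 := by unfold nst; split_ifs <;> omega
    have h2 : nst n % 4 = 1 := by unfold nst; split_ifs <;> omega
    obtain ⟨s, hs⟩ : ∃ s, nst (q : ℤ) = 4 * s + 1 := ⟨nst (q : ℤ) / 4, by omega⟩
    obtain ⟨t, ht⟩ : ∃ t, nst n = 4 * t + 1 := ⟨nst n / 4, by omega⟩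
    rw [hs, ht]
    have e1 : (4 * s + 1 - 1) / 4 = s := by omega
    have e2 : (4 * t + 1 - 1) / 4 = t := by omega
    have e3 : ((4 * s + 1) * (4 * t + 1) - 1) / 4 = s + t + 4 * (s * t) := by
      have : (4 * s + 1) * (4 * t + 1) - 1 = 4 * (s + t + 4 * (s * t)) := by ring
      rw [this]; exact Int.mul_ediv_cancel_left _ (by norm_num)
    rw [e1, e2, e3, iz_add (s + t), iz_four, mul_one]

end Pool.Agent.TM32
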